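import Pool.Agent.H560Bh.Final

namespace Pool.Agent.Results.MP_462568_co.FixedSize

open Pool.Agent.H560Bh Filter Topology

/-- For every fixed `m ≥ 2` the threshold satisfies `g(m,h) ~ Δ h ^ (m - 1)` as `h → ∞`, where `Δ` is
the critical determinant of the difference body of the `(m - 1)`-dimensional standard simplex; the
bound `g(m,h) ≥ Δ (h + 1) ^ (m - 1)` holds for all `h`, and `g(m,h)` is asymptotically equal to the
least order `f(m,h)` of an abelian group with a `B_h` set of size `m`. -/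
theorem result : ∀ m : ℕ, 2 ≤ m →
    0 < crit (m - 1) ∧
    (∀ h : ℕ, crit (m - 1) * ((h : ℝ) + 1) ^ (m - 1) ≤ (g m h : ℝ)) ∧
    Tendsto (fun h : ℕ => (g m h : ℝ) / (h : ℝ) ^ (m - 1)) atTop (𝓝 (crit (m - 1))) ∧
    Tendsto (fun h : ℕ => (g m h : ℝ) / (f m h : ℝ)) atTop (𝓝 1) := by
  intro m hm
  obtain ⟨d, rfl⟩ : ∃ d, m = d + 2 := ⟨m - 2, by omega⟩
  have e : d + 2 - 1 = d + 1 := by omega
  rw [e, ← c_eq_crit]
  refine ⟨c_pos d, ?_, (main d).1, ratio d⟩
  intro h
  rw [c_eq_crit]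
  exact g_ge d h

end Pool.Agent.Results.MP_462568_co.FixedSize
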