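import Pool.Agent.H560Bh.Lower

namespace Pool.Agent.Results.MP_462568_co.ThreeTerms

open Pool.Agent.H560Bh

/-- For `m = 3` the threshold is `g(3,h) = (3/4) h ^ 2 + O(h ^ {3/2})`, with explicit bounds. -/
theorem result : ∀ h : ℕ, 1 ≤ h →
    3 / 4 * ((h : ℝ) + 1) ^ 2 ≤ (g 3 h : ℝ) ∧
    (g 3 h : ℝ) ≤ 3 / 4 * (h : ℝ) ^ 2 + 9 * h * Real.sqrt h := by
  intro h hh
  refine ⟨?_, g_upper h hh⟩
  have h1 := g_lower h hh
  have h2 : (3 : ℝ) * ((h : ℝ) + 1) ^ 2 ≤ 4 * g 3 h := by exact_mod_cast h1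
  linarith

end Pool.Agent.Results.MP_462568_co.ThreeTerms
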